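import Mathlib

namespace Pool.Agent.Results.MP_290264_an.FreeSubgroup

open MeasureTheory Set

universe u

/-- `R ⊆ G` is a set of topological recurrence: for every minimal action of the discrete group `G`
by homeomorphisms on a compact metric space `X` and every non-empty open `U ⊆ X`, some `g ∈ R`
with `g ≠ 1` satisfies `U ∩ T_g⁻¹ U ≠ ∅`, where `T_g x = g • x`. -/
def TopRec {G : Type u} [Group G] (R : Set G) : Prop :=
  ∀ (X : Type u) [MetricSpace X] [CompactSpace X] [MulAction G X] [ContinuousConstSMul G X]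
    [MulAction.IsMinimal G X] (U : Set X), IsOpen U → U.Nonempty →
    ∃ g ∈ R, g ≠ 1 ∧ (U ∩ (fun x : X => g • x) ⁻¹' U).Nonempty

/-- `R ⊆ G` is a set of measurable recurrence: for every measure preserving action of `G` on a
probability space `X` and every measurable `A` with `μ A > 0`, some `g ∈ R` with `g ≠ 1` satisfies
`μ (A ∩ T_g⁻¹ A) > 0`, where `T_g x = g • x`. -/
def MeasRec {G : Type u} [Group G] (R : Set G) : Prop :=
  ∀ (X : Type u) [MeasurableSpace X] (μ : Measure X) [IsProbabilityMeasure μ] [MulAction G X],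
    (∀ g : G, MeasurePreserving (fun x : X => g • x) μ μ) →
    ∀ A : Set X, MeasurableSet A → 0 < μ A →
    ∃ g ∈ R, g ≠ 1 ∧ 0 < μ (A ∩ (fun x : X => g • x) ⁻¹' A)

/-! ### The general criterion -/

section Criterion

variable {G : Type u} [Group G]

/-- The set of all `k ≠ 1` with `S ∩ k⁻¹ S = ∅`. -/
def avoid (S : Set G) : Set G := {k : G | k ≠ 1 ∧ ∀ s ∈ S, k * s ∉ S}

/-- If `S` has arbitrarily many pairwise disjoint left translates, then `avoid S` is a set of
measurable recurrence. -/
theorem measRec_avoid (S : Set G) (hne : S.Nonempty)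
    (hd : ∀ n : ℕ, ∃ t : Fin n → G, ∀ i j, i ≠ j → ∀ s ∈ S, ∀ s' ∈ S, t i * s ≠ t j * s') :
    MeasRec (avoid S) := by
  intro X _ μ _ _ hT A hA hpos
  obtain ⟨n, hn⟩ : ∃ n : ℕ, 1 < (n : ENNReal) * μ A := by
    obtain ⟨n, hn⟩ := ENNReal.exists_nat_mul_gt hpos.ne' ENNReal.one_ne_top
    exact ⟨n, hn⟩
  obtain ⟨t, ht⟩ := hd n
  by_contra hcon
  push Not at hcon
  have key : ∀ i j, i ≠ j → μ (((fun x : X => (t i)⁻¹ • x) ⁻¹' A) ∩
      ((fun x : X => (t j)⁻¹ • x) ⁻¹' A)) = 0 := by
    intro i j hij
    have hk : (t i)⁻¹ * t j ∈ avoid S := by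
      refine ⟨?_, ?_⟩
      · intro h
        obtain ⟨s, hs⟩ := hne
        have : t j = t i := by
          have := congrArg (fun x => t i * x) h
          simpa using this
        exact ht i j hij s hs s hs (by rw [this])
      · intro s hs hmem
        refine ht i j hij _ hmem s hs ?_
        group
    have h0 := hcon _ hk hk.1
    have h1 : μ (A ∩ (fun x : X => ((t i)⁻¹ * t j) • x) ⁻¹' A) = 0 := le_antisymm h0 bot_le
    have h2 : ((fun x : X => (t i)⁻¹ • x) ⁻¹' A) ∩ ((fun x : X => (t j)⁻¹ • x) ⁻¹' A)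
        = (fun x : X => (t j)⁻¹ • x) ⁻¹' (A ∩ (fun x : X => ((t i)⁻¹ * t j) • x) ⁻¹' A) := by
      ext x
      simp only [mem_inter_iff, mem_preimage, mul_smul, smul_inv_smul]
      tauto
    rw [h2, (hT (t j)⁻¹).measure_preimage]
    · exact h1
    · exact (hA.inter ((hT _).measurable hA)).nullMeasurableSet
  have hsum : μ (⋃ i ∈ (Finset.univ : Finset (Fin n)), (fun x : X => (t i)⁻¹ • x) ⁻¹' A)
      = ∑ i : Fin n, μ ((fun x : X => (t i)⁻¹ • x) ⁻¹' A) := by
    refine measure_biUnion_finset₀ ?_ ?_
    · intro i _ j _ hij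
      exact key i j hij
    · intro i _
      exact ((hT _).measurable hA).nullMeasurableSet
  have hsum' : ∑ i : Fin n, μ ((fun x : X => (t i)⁻¹ • x) ⁻¹' A) = n * μ A := by
    have : ∀ i : Fin n, μ ((fun x : X => (t i)⁻¹ • x) ⁻¹' A) = μ A := fun i =>
      (hT (t i)⁻¹).measure_preimage hA.nullMeasurableSet
    simp [this]
  have hle : μ (⋃ i ∈ (Finset.univ : Finset (Fin n)), (fun x : X => (t i)⁻¹ • x) ⁻¹' A) ≤ 1 :=
    prob_le_one
  rw [hsum, hsum'] at hle
  exact absurd hn (not_lt.mpr hle)

/-- Every non-empty closed invariant subset of a compact space contains a minimal one. -/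
theorem exists_minimal {Y : Type u} [TopologicalSpace Y] [CompactSpace Y] [MulAction G Y]
    (K : Set Y) (hKc : IsClosed K) (hKn : K.Nonempty) (hKi : ∀ g : G, ∀ x ∈ K, g • x ∈ K) :
    ∃ M : Set Y, M ⊆ K ∧ IsClosed M ∧ M.Nonempty ∧ (∀ g : G, ∀ x ∈ M, g • x ∈ M) ∧
      ∀ L : Set Y, L ⊆ M → IsClosed L → L.Nonempty → (∀ g : G, ∀ x ∈ L, g • x ∈ L) → L = M := by
  let F : Set (Set Y) := {M | IsClosed M ∧ M.Nonempty ∧ ∀ g : G, ∀ x ∈ M, g • x ∈ M}
  obtain ⟨M, hMK, hM⟩ := zorn_superset_nonempty F (by
    intro c hc hchain hcne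
    refine ⟨⋂₀ c, ⟨?_, ?_, ?_⟩, fun s hs => sInter_subset_of_mem hs⟩
    · exact isClosed_sInter fun s hs => (hc hs).1
    · have : Nonempty c := hcne.to_subtype
      refine IsCompact.nonempty_sInter_of_directed_nonempty_isCompact_isClosed ?_ ?_ ?_ ?_
      · intro a ha b hb
        rcases hchain.total ha hb with hab | hab
        · exact ⟨a, ha, subset_rfl, hab⟩
        · exact ⟨b, hb, hab, subset_rfl⟩
      · exact fun s hs => (hc hs).2.1
      · exact fun s hs => (hc hs).1.isCompact
      · exact fun s hs => (hc hs).1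
    · intro g x hx s hs
      exact (hc hs).2.2 g x (hx s hs)) K ⟨hKc, hKn, hKi⟩
  refine ⟨M, hMK, hM.prop.1, hM.prop.2.1, hM.prop.2.2, ?_⟩
  intro L hLM hLc hLn hLi
  exact subset_antisymm hLM (hM.le_of_le (y := L) ⟨hLc, hLn, hLi⟩ hLM)

end Criterion

/-! ### The subshift -/

/-- The full shift `{0,1}^G`. -/
def Shift (G : Type u) : Type u := G → Bool

instance (G : Type u) : TopologicalSpace (Shift G) := inferInstanceAs (TopologicalSpace (G → Bool))
instance (G : Type u) : CompactSpace (Shift G) := inferInstanceAs (CompactSpace (G → Bool))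
instance (G : Type u) : T2Space (Shift G) := inferInstanceAs (T2Space (G → Bool))
instance (G : Type u) [Countable G] : SecondCountableTopology (Shift G) :=
  inferInstanceAs (SecondCountableTopology (G → Bool))

instance (G : Type u) [Group G] : MulAction G (Shift G) where
  smul g ω := fun h => ω (h * g)
  one_smul ω := by
    funext h
    change ω (h * 1) = ω h
    rw [mul_one]
  mul_smul g g' ω := by
    funext h
    change ω (h * (g * g')) = ω (h * g * g')
    rw [mul_assoc]

theorem smul_apply {G : Type u} [Group G] (g : G) (ω : Shift G) (h : G) :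
    (g • ω) h = ω (h * g) := rfl

theorem continuous_eval {G : Type u} (h : G) : Continuous (fun ω : Shift G => ω h) :=
  continuous_apply (A := fun _ : G => Bool) h

theorem continuous_smul' {G : Type u} [Group G] (g : G) : Continuous (fun ω : Shift G => g • ω) := by
  refine continuous_pi (A := fun _ : G => Bool) ?_
  intro h
  exact continuous_eval (h * g)

theorem not_topRec_avoid {G : Type u} [Group G] [Countable G] (S : Set G)
    (hF : ∃ F : Finset G, ∀ g : G, ∃ f ∈ F, f * g ∈ S) : ¬ TopRec (avoid S) := by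
  classical
  intro h
  obtain ⟨F, hF⟩ := hF
  let x0 : Shift G := fun g => decide (g ∈ S)
  let K : Set (Shift G) := closure (range fun g : G => g • x0)
  have hKi : ∀ g : G, ∀ x ∈ K, g • x ∈ K := by
    intro g x hx
    have h1 : (fun ω : Shift G => g • ω) '' K ⊆
        closure ((fun ω : Shift G => g • ω) '' (range fun g : G => g • x0)) :=
      image_closure_subset_closure_image (continuous_smul' g)
    have h2 := h1 (mem_image_of_mem _ hx)
    refine closure_mono ?_ h2
    rintro _ ⟨_, ⟨g', rfl⟩, rfl⟩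
    exact ⟨g * g', mul_smul _ _ _⟩
  obtain ⟨M, hMK, hMc, hMn, hMi, hMmin⟩ := exists_minimal (G := G) K isClosed_closure
    ((range_nonempty _).closure) hKi
  have hcover : ∀ ω ∈ K, ∃ f ∈ F, (f • ω) 1 = true := by
    have hcl : IsClosed {ω : Shift G | ∃ f ∈ F, (f • ω) 1 = true} := by
      have : {ω : Shift G | ∃ f ∈ F, (f • ω) 1 = true}
          = ⋃ f ∈ F, {ω : Shift G | (f • ω) 1 = true} := by
        ext ω
        simp
      rw [this]
      refine isClosed_biUnion_finset fun f _ => ?_
      exact isClosed_eq ((continuous_eval 1).comp (continuous_smul' f)) continuous_const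
    refine fun ω hω => closure_minimal ?_ hcl hω
    rintro _ ⟨g, rfl⟩
    obtain ⟨f, hf, hfg⟩ := hF g
    refine ⟨f, hf, ?_⟩
    change decide (1 * f * g ∈ S) = true
    simpa using hfg
  let act : MulAction G M :=
    { smul := fun g x => ⟨g • x.1, hMi g x.1 x.2⟩
      one_smul := fun x => Subtype.ext (one_smul G x.1)
      mul_smul := fun g g' x => Subtype.ext (mul_smul g g' x.1) }
  have coe_smul : ∀ (g : G) (x : M), ((g • x : M) : Shift G) = g • (x : Shift G) := fun _ _ => rfl
  have : CompactSpace M := isCompact_iff_compactSpace.mp hMc.isCompact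
  have : TopologicalSpace.MetrizableSpace M :=
    TopologicalSpace.metrizableSpace_of_t3_secondCountable M
  let _ : MetricSpace M := TopologicalSpace.metrizableSpaceMetric M
  have : ContinuousConstSMul G M := ⟨fun g =>
    ((continuous_smul' g).comp continuous_subtype_val).subtype_mk _⟩
  have : MulAction.IsMinimal G M := by
    refine ⟨fun x => ?_⟩
    let L : Set (Shift G) := closure (range fun g : G => g • (x : Shift G))
    have hL : L = M := by
      refine hMmin L ?_ isClosed_closure (range_nonempty _).closure ?_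
      · refine closure_minimal ?_ hMc
        rintro _ ⟨g, rfl⟩
        exact hMi g _ x.2
      · intro g y hy
        have h1 : (fun ω : Shift G => g • ω) '' L ⊆
            closure ((fun ω : Shift G => g • ω) '' (range fun g : G => g • (x : Shift G))) :=
          image_closure_subset_closure_image (continuous_smul' g)
        have h2 := h1 (mem_image_of_mem _ hy)
        refine closure_mono ?_ h2
        rintro _ ⟨_, ⟨g', rfl⟩, rfl⟩
        exact ⟨g * g', mul_smul _ _ _⟩
    intro y
    rw [closure_subtype]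
    have hy : (y : Shift G) ∈ L := by
      rw [hL]
      exact y.2
    refine closure_mono ?_ hy
    rintro _ ⟨g, rfl⟩
    exact ⟨g • x, ⟨g, rfl⟩, rfl⟩
  let U : Set M := {x | (x : Shift G) 1 = true}
  have hU : IsOpen U := (isOpen_discrete ({true} : Set Bool)).preimage
    ((continuous_eval 1).comp continuous_subtype_val)
  have hUn : U.Nonempty := by
    obtain ⟨x, hx⟩ := hMn
    obtain ⟨f, -, hf⟩ := hcover x (hMK hx)
    exact ⟨⟨f • x, hMi f x hx⟩, hf⟩
  obtain ⟨k, hk, -, x, hxU, hkx⟩ := h M U hU hUn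
  have hW : IsOpen {ω : Shift G | ω 1 = true ∧ (k • ω) 1 = true} := by
    refine IsOpen.inter ?_ ?_
    · exact (isOpen_discrete ({true} : Set Bool)).preimage (continuous_eval 1)
    · exact (isOpen_discrete ({true} : Set Bool)).preimage
        ((continuous_eval 1).comp (continuous_smul' k))
  have hxK : (x : Shift G) ∈ K := hMK x.2
  obtain ⟨_, ⟨h1, h2⟩, g, rfl⟩ := mem_closure_iff.mp hxK _ hW ⟨hxU, hkx⟩
  have hg : g ∈ S := by
    have : decide (1 * g ∈ S) = true := h1
    simpa using this
  have hkg : k * g ∈ S := by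
    have : decide (1 * k * g ∈ S) = true := h2
    simpa using this
  exact hk.2 g hg hkg

/-! ### Free groups -/

section Free

open FreeGroup

/-- Words of `F₂` that start with the first generator. -/
def startA : Set (FreeGroup (Fin 2)) := {w | w.toWord.head? = some (0, true)}

theorem toWord_of_mul (i : Fin 2) (b : Bool) (w : FreeGroup (Fin 2))
    (hw : w.toWord.head? ≠ some (i, !b)) :
    (FreeGroup.mk [(i, b)] * w).toWord = (i, b) :: w.toWord := by
  have h1 : (FreeGroup.mk [(i, b)] * w).toWord = reduce ((i, b) :: w.toWord) := by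
    rw [toWord_mul, toWord_mk, reduce_singleton, List.singleton_append]
  rw [h1, reduce.cons, reduce_toWord]
  rcases hL : w.toWord with _ | ⟨y, ys⟩
  · rfl
  · rw [hL] at hw
    simp only [List.head?_cons, ne_eq, Option.some.injEq] at hw
    have : ¬ (i = y.1 ∧ b = !y.2) := by
      rintro ⟨h1, h2⟩
      apply hw
      ext
      · rw [h1]
      · simp [h2]
    simp [this]

theorem of_mul_startA (m : ℕ) (w : FreeGroup (Fin 2)) (hw : w ∈ startA) :
    (FreeGroup.of (1 : Fin 2) ^ m * w).toWord = List.replicate m ((1 : Fin 2), true) ++ w.toWord := by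
  induction m with
  | zero => simp
  | succ m ih =>
    rw [pow_succ', mul_assoc]
    have h1 : (FreeGroup.of (1 : Fin 2) ^ m * w).toWord.head? ≠ some ((1 : Fin 2), !true) := by
      rw [ih]
      cases m with
      | zero =>
        have : w.toWord.head? = some (0, true) := hw
        simp [this]
      | succ m => simp [List.replicate_succ]
    have h2 := toWord_of_mul 1 true (FreeGroup.of (1 : Fin 2) ^ m * w) h1
    change (FreeGroup.of (1 : Fin 2) * _).toWord = _ at h2
    rw [h2, ih, List.replicate_succ, List.cons_append]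

theorem disj_startA {m n : ℕ} (hmn : m < n) (w w' : FreeGroup (Fin 2)) (hw : w ∈ startA)
    (hw' : w' ∈ startA) :
    FreeGroup.of (1 : Fin 2) ^ m * w ≠ FreeGroup.of (1 : Fin 2) ^ n * w' := by
  intro h
  obtain ⟨d, rfl⟩ : ∃ d, n = m + (d + 1) := ⟨n - m - 1, by omega⟩
  rw [pow_add, mul_assoc, mul_right_inj] at h
  have h1 := of_mul_startA (d + 1) w' hw'
  rw [← h] at h1
  have h2 : w.toWord.head? = some (0, true) := hw
  rw [h1] at h2
  simp [List.replicate_succ] at h2

theorem cover_startA (w : FreeGroup (Fin 2)) :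
    FreeGroup.of (0 : Fin 2) * w ∈ startA ∨
      FreeGroup.of (0 : Fin 2) * FreeGroup.of (1 : Fin 2) * w ∈ startA := by
  by_cases hw : w.toWord.head? = some (0, false)
  · right
    have h1 := toWord_of_mul 1 true w (by rw [hw]; simp)
    change (FreeGroup.of (1 : Fin 2) * w).toWord = _ at h1
    have h2 := toWord_of_mul 0 true (FreeGroup.of (1 : Fin 2) * w) (by rw [h1]; simp)
    change (FreeGroup.of (0 : Fin 2) * _).toWord = _ at h2
    rw [mul_assoc]
    change (FreeGroup.of (0 : Fin 2) * (FreeGroup.of (1 : Fin 2) * w)).toWord.head? = _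
    rw [h2]
    rfl
  · left
    have h2 := toWord_of_mul 0 true w (by simpa using hw)
    change (FreeGroup.of (0 : Fin 2) * _).toWord = _ at h2
    change (FreeGroup.of (0 : Fin 2) * w).toWord.head? = _
    rw [h2]
    rfl

end Free

/-- Every countable group with a non-abelian free subgroup has a set of measurable recurrence that
is not a set of topological recurrence. -/
theorem result {G : Type u} [Group G] [Countable G]
    (hfree : ∃ f : FreeGroup (Fin 2) →* G, Function.Injective f) :
    ∃ R : Set G, MeasRec R ∧ ¬ TopRec R := by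
  classical
  obtain ⟨f, hf⟩ := hfree
  let r : G → G := fun g => (Quotient.out (Quotient.mk (QuotientGroup.rightRel f.range) g) : G)
  have hr : ∀ g, ∃ w, f w = g * (r g)⁻¹ := by
    intro g
    have h1 : (QuotientGroup.rightRel f.range).r (r g) g := Quotient.mk_out g
    have h2 : g * (r g)⁻¹ ∈ f.range := QuotientGroup.rightRel_apply.mp h1
    exact h2
  have hr' : ∀ w g, r (f w * g) = r g := by
    intro w g
    have : Quotient.mk (QuotientGroup.rightRel f.range) (f w * g)
        = Quotient.mk (QuotientGroup.rightRel f.range) g := by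
      apply Quotient.sound
      apply QuotientGroup.rightRel_apply.mpr
      refine ⟨w⁻¹, ?_⟩
      simp
    change (Quotient.out (Quotient.mk (QuotientGroup.rightRel f.range) (f w * g)) : G) = _
    rw [this]
  let S : Set G := {g | ∃ w ∈ startA, f w = g * (r g)⁻¹}
  have hSF : ∃ F : Finset G, ∀ g : G, ∃ f ∈ F, f * g ∈ S := by
    refine ⟨{f (FreeGroup.of 0), f (FreeGroup.of 0 * FreeGroup.of 1)}, ?_⟩
    intro g
    obtain ⟨w, hw⟩ := hr g
    rcases cover_startA w with h | h
    · refine ⟨f (FreeGroup.of 0), by simp, FreeGroup.of 0 * w, h, ?_⟩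
      rw [hr', map_mul, hw, mul_assoc]
    · refine ⟨f (FreeGroup.of 0 * FreeGroup.of 1), by simp,
        FreeGroup.of 0 * FreeGroup.of 1 * w, h, ?_⟩
      rw [hr', map_mul, hw, mul_assoc]
  have hSne : S.Nonempty := by
    obtain ⟨F, hF⟩ := hSF
    obtain ⟨k, -, hk⟩ := hF 1
    exact ⟨_, hk⟩
  refine ⟨avoid S, measRec_avoid S hSne ?_, not_topRec_avoid S hSF⟩
  intro n
  refine ⟨fun i => f (FreeGroup.of 1 ^ (i : ℕ)), ?_⟩
  have main : ∀ m n : ℕ, m < n → ∀ s ∈ S, ∀ s' ∈ S,
      f (FreeGroup.of 1 ^ m) * s ≠ f (FreeGroup.of 1 ^ n) * s' := by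
    rintro m n hmn s ⟨w, hw, hws⟩ s' ⟨w', hw', hws'⟩ heq
    have h1 : r s = r s' := by
      rw [← hr' (FreeGroup.of 1 ^ m) s, ← hr' (FreeGroup.of 1 ^ n) s', heq]
    apply disj_startA hmn w w' hw hw'
    apply hf
    rw [map_mul, map_mul, hws, hws', ← mul_assoc, ← mul_assoc, heq, h1]
  intro i j hij s hs s' hs'
  rcases lt_or_gt_of_ne (fun h : (i : ℕ) = j => hij (Fin.ext h)) with h | h
  · exact main _ _ h s hs s' hs'
  · exact fun heq => main _ _ h s' hs' s hs heq.symm

end Pool.Agent.Results.MP_290264_an.FreeSubgroup
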